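import Pool.Agent.J4H24.TW.Fw

/-!
# Both bounds
-/

namespace Pool.Agent.J4H24.TW

open Pool.Agent.J4H24.TD (NBP Thrifty Solves te_behrend)

theorem tw_final (l r : ℕ → ℕ → ℕ) (h k : ℕ) (hk : 2 ≤ k) :
    ∃ (Q : Type) (_ : Fintype Q) (P : NBP k Q), Thrifty P l r h ∧ Solves P l r h ∧
      (Fintype.card Q : ℝ) ≤
        min (Real.exp (11000 * (h + 1 + Real.log k +
            √(h * (Real.log k * (1 + Real.log (1 + Real.log k)))))))
          ((k : ℝ) ^ 5 * Real.exp (100 * (h + 1) * (√(Real.log k) + (h + 1)))) := by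
  rcases le_total (Real.exp (11000 * (h + 1 + Real.log k +
      √(h * (Real.log k * (1 + Real.log (1 + Real.log k)))))))
    ((k : ℝ) ^ 5 * Real.exp (100 * (h + 1) * (√(Real.log k) + (h + 1)))) with hc | hc
  · obtain ⟨Q, hQ, P, h1, h2, h3⟩ := tw_strip l r h k hk
    exact ⟨Q, hQ, P, h1, h2, by rw [min_eq_left hc]; exact h3⟩
  · obtain ⟨Q, hQ, P, h1, h2, h3⟩ := te_behrend l r h k hk
    exact ⟨Q, hQ, P, h1, h2, by rw [min_eq_right hc]; exact h3⟩

end Pool.Agent.J4H24.TW
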