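import Pool.Agent.J4H24.TW.Lw
import Pool.Agent.J4H24.TD.Fin

/-!
# The bound for all heights
-/

namespace Pool.Agent.J4H24.TW

open Real
open Pool.Agent.J4H24.TD (NBP Thrifty Solves td_gen)

/-- The choice of the parameter. -/
lemma choose_t {h w : ℕ} {l Λ : ℝ} (hw : 0 < w) (hl : 0 < l) (hlw : l ≤ w) (hΛ : 1 ≤ Λ)
    (hΛl : Λ ≤ 7 / 2 * √l) : ∃ t : ℕ, 1 ≤ t ∧ t * t ≤ w ∧
      l * Λ / t + t * h ≤ 7 * l + 3 * √(h * (l * Λ)) + 2 * h := by
  have hh : (0 : ℝ) ≤ h := by positivity
  have hlΛ : 0 < l * Λ := by positivity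
  set S := √(h * (l * Λ)) with hS
  have hS0 : 0 ≤ S := Real.sqrt_nonneg _
  set s := Nat.sqrt w with hs
  have hs1 : 1 ≤ s := Nat.sqrt_pos.mpr hw
  have hss : s * s ≤ w := Nat.sqrt_le w
  have hss' : w < (s + 1) * (s + 1) := Nat.lt_succ_sqrt w
  have hsR : (1 : ℝ) ≤ s := by exact_mod_cast hs1
  rcases le_or_gt ((s : ℝ) ^ 2 * h) (l * Λ) with hA | hA
  · -- large `l`
    refine ⟨s, hs1, hss, ?_⟩
    have h1 : (s : ℝ) * h ≤ S := by
      rw [hS]
      apply Real.le_sqrt_of_sq_le
      calc ((s : ℝ) * h) ^ 2 = h * ((s : ℝ) ^ 2 * h) := by ring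
        _ ≤ h * (l * Λ) := by gcongr
    have h2 : √l ≤ 2 * s := by
      have h3 : (w : ℝ) < ((s : ℝ) + 1) * (s + 1) := by exact_mod_cast hss'
      rw [show (2 : ℝ) * s = √((2 * s) ^ 2) from (Real.sqrt_sq (by positivity)).symm]
      apply Real.sqrt_le_sqrt
      nlinarith
    have h3 : l * Λ / s ≤ 7 * l := by
      rw [div_le_iff₀ (by linarith)]
      calc l * Λ ≤ l * (7 / 2 * √l) := by gcongr
        _ ≤ l * (7 / 2 * (2 * s)) := by gcongr
        _ = 7 * l * s := by ring
    linarith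
  · have hh0 : (0 : ℝ) < h := by
      by_contra hc
      have : (h : ℝ) = 0 := le_antisymm (not_lt.mp hc) hh
      rw [this] at hA
      linarith
    rcases le_or_gt (h : ℝ) (l * Λ) with hB | hB
    · -- middle
      set T := √(l * Λ / h) with hT
      have hT1 : 1 ≤ T := by
        rw [hT, Real.one_le_sqrt, le_div_iff₀ hh0]
        linarith
      have hTs : T ≤ s := by
        rw [hT]
        apply Real.sqrt_le_iff.mpr
        refine ⟨by linarith, ?_⟩
        rw [div_le_iff₀ hh0]
        exact hA.le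
      have hTh : T * h = S := by
        rw [hT, hS]
        have : (h : ℝ) = √((h : ℝ) ^ 2) := (Real.sqrt_sq hh).symm
        conv_lhs => rw [this]
        rw [← Real.sqrt_mul (by positivity)]
        congr 1
        rw [Real.sqrt_sq hh]
        field_simp
      have hTT : T * T = l * Λ / h := Real.mul_self_sqrt (by positivity)
      set t := ⌊T⌋₊ with ht
      have ht1 : 1 ≤ t := Nat.le_floor (by simpa using hT1)
      have htT : (t : ℝ) ≤ T := Nat.floor_le (by linarith)
      have hTt : T < t + 1 := Nat.lt_floor_add_one T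
      have ht1R : (1 : ℝ) ≤ t := by exact_mod_cast ht1
      have hts : t ≤ s := by exact_mod_cast htT.trans hTs
      refine ⟨t, ht1, (Nat.mul_le_mul hts hts).trans hss, ?_⟩
      have h1 : (t : ℝ) * h ≤ S := by rw [← hTh]; gcongr
      have h2 : l * Λ / t ≤ 2 * S := by
        rw [div_le_iff₀ (by linarith)]
        have h3 : l * Λ = T * T * h := by rw [hTT]; field_simp
        rw [h3, ← hTh]
        have h4 : T ≤ 2 * t := by linarith
        have h5 : 0 ≤ T * h := by positivity
        nlinarith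
      linarith
    · -- small `l`
      refine ⟨1, le_rfl, by omega, ?_⟩
      simp only [Nat.cast_one, div_one, one_mul]
      linarith

/-- **Small unambiguous thrifty programs for all heights.** -/
theorem tw_strip (lf rt : ℕ → ℕ → ℕ) (h k : ℕ) (hk : 2 ≤ k) :
    ∃ (Q : Type) (_ : Fintype Q) (P : NBP k Q),
    Thrifty P lf rt h ∧ Solves P lf rt h ∧ (Fintype.card Q : ℝ) ≤
      Real.exp (11000 * (h + 1 + Real.log k +
        √(h * (Real.log k * (1 + Real.log (1 + Real.log k)))))) := by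
  set w := Nat.clog 2 k with hw
  have hw0 : 0 < w := Nat.clog_pos (by norm_num) hk
  have hkw : k ≤ 2 ^ w := Nat.le_pow_clog (by norm_num) k
  have hk2 : (2 : ℝ) ≤ k := by exact_mod_cast hk
  have hk0 : (0 : ℝ) < k := by linarith
  set l := Real.log k with hl
  have hl2 : Real.log 2 ≤ l := Real.log_le_log (by norm_num) hk2
  have hlog2 := Real.log_two_gt_d9
  have hlog2' := Real.log_two_lt_d9
  have hl0 : 0 < l := by linarith
  have hw1 : (1 : ℝ) ≤ w := by exact_mod_cast hw0
  have hwl : (w : ℝ) ≤ 3 * l := by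
    have h4 := Nat.pow_pred_clog_lt_self (b := 2) (by norm_num) (show 1 < k by omega)
    rw [Nat.pred_eq_sub_one, ← hw] at h4
    have h5 : ((2 : ℝ)) ^ (w - 1) ≤ k := by exact_mod_cast h4.le
    have h6 := Real.log_le_log (by positivity) h5
    rw [Real.log_pow, Nat.cast_sub hw0] at h6
    push_cast at h6
    nlinarith
  have hlw : l ≤ w := by
    have h5 : (k : ℝ) ≤ (2 : ℝ) ^ w := by exact_mod_cast hkw
    have h6 := Real.log_le_log hk0 h5
    rw [Real.log_pow] at h6
    have h7 : (w : ℝ) * Real.log 2 ≤ w * 1 := by gcongr; linarith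
    linarith
  set Λ := 1 + Real.log (1 + l) with hΛdef
  have hE0 : 0 ≤ Real.log (1 + l) := Real.log_nonneg (by linarith)
  have hΛ : 1 ≤ Λ := by linarith
  have hsl : (0.83 : ℝ) ≤ √l := by
    apply Real.le_sqrt_of_sq_le
    norm_num
    linarith
  have hΛl : Λ ≤ 7 / 2 * √l := by
    have h1 : Real.log (1 + l) ≤ 2 * √l := by
      have h2 : (1 + l) ≤ (1 + √l) ^ 2 := by
        have := Real.sq_sqrt hl0.le
        nlinarith [Real.sqrt_nonneg l]
      have h3 := Real.log_le_log (by linarith) h2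
      rw [Real.log_pow] at h3
      have h4 := Real.log_le_sub_one_of_pos (show (0 : ℝ) < 1 + √l by positivity)
      push_cast at h3
      linarith
    linarith
  obtain ⟨t, ht1, htw, htb⟩ := choose_t (h := h) hw0 hl0 hlw hΛ hΛl
  set c := w / (t * (t + 4)) + 1 with hc
  have hc0 : 0 < c := Nat.succ_pos _
  set b := (t + 4) * c with hb
  have htt : 0 < t * (t + 4) := by positivity
  have hkb : k ≤ 2 ^ (t * b) := by
    refine hkw.trans (Nat.pow_le_pow_right (by norm_num) ?_)
    have h1 := Nat.div_add_mod w (t * (t + 4))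
    have h2 := Nat.mod_lt w htt
    have h3 : t * b = t * (t + 4) * (w / (t * (t + 4))) + t * (t + 4) := by rw [hb, hc]; ring
    omega
  have ht1R : (1 : ℝ) ≤ t := by exact_mod_cast ht1
  have htwR : (t : ℝ) * t ≤ w := by exact_mod_cast htw
  have hbt : (b : ℝ) * t ≤ 6 * w := by
    have h1 : ((w / (t * (t + 4)) : ℕ) : ℝ) ≤ (w : ℝ) / (t * (t + 4)) := by
      have := @Nat.cast_div_le ℝ _ _ _ w (t * (t + 4))
      push_cast at this
      exact this
    have h2 : (b : ℝ) = (t + 4) * (((w / (t * (t + 4)) : ℕ) : ℝ) + 1) := by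
      rw [hb, hc]; push_cast; ring
    rw [h2]
    have h3 : ((t : ℝ) + 4) * ((w : ℝ) / (t * (t + 4)) + 1) * t = w + (t + 4) * t := by
      field_simp
    have h4 : ((t : ℝ) + 4) * (((w / (t * (t + 4)) : ℕ) : ℝ) + 1) * t ≤
        (t + 4) * ((w : ℝ) / (t * (t + 4)) + 1) * t := by gcongr
    nlinarith
  have hb0 : 0 < b := by rw [hb]; positivity
  have hbR : (1 : ℝ) ≤ b := by exact_mod_cast hb0
  have hb6 : (b : ℝ) ≤ 6 * w := by nlinarith
  obtain ⟨al, be, hC⟩ := strip_codes (k := k) (t := t) (b := b) (c := c) hc0 hb hkb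
  obtain ⟨Q, hQ, P, h1, h2, h3⟩ := td_gen lf rt (h := h) hk hC
  refine ⟨Q, hQ, P, h1, h2, ?_⟩
  set K := NS t b c (h + 1) with hK
  have hKb := NS_le (t := t) (b := b) hc0 hb h
  rw [← hK] at hKb
  -- the exponent
  have hlogb : Real.log b ≤ 3 * Λ := by
    have h5 : Real.log b ≤ Real.log (18 * (1 + l)) :=
      Real.log_le_log (by linarith) (by linarith)
    rw [Real.log_mul (by norm_num) (by positivity)] at h5
    have h6 : Real.log 18 ≤ 3 := by
      have e : (18 : ℝ) = 2 * 9 := by norm_num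
      have h9 : Real.log 18 ≤ Real.log (2 ^ 3 * (9 / 4)) := by norm_num
      rw [Real.log_mul (by norm_num) (by norm_num), Real.log_pow] at h9
      have h10 : Real.log (9 / 4) ≤ 0.9 := by
        have h11 : Real.log (9 / 4) = 2 * Real.log (3 / 2) := by
          rw [show (9 / 4 : ℝ) = (3 / 2) ^ 2 by norm_num, Real.log_pow]; norm_num
        have h12 := Real.log_le_sub_one_of_pos (show (0 : ℝ) < 3 / 4 * (1 + 1 / 1) by norm_num)
        have h13 : Real.log (3 / 2) ≤ 0.45 := by
          have h14 : Real.log (3 / 2) = Real.log 2 + Real.log (3 / 4) := by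
            rw [← Real.log_mul (by norm_num) (by norm_num)]; norm_num
          have h15 := Real.log_le_sub_one_of_pos (show (0 : ℝ) < 3 / 4 by norm_num)
          rw [h14]
          linarith
        linarith
      push_cast at h9
      linarith
    have : (0 : ℝ) ≤ Real.log (1 + l) := hE0
    rw [hΛdef]
    linarith
  have hexp : 4 * b * Real.log (3 * (2 ^ (t + 2)) ^ 2 * b ^ 2) + 8 * (t + 4) * h ≤
      168 * w + 432 * (l * Λ / t) + 40 * (t * h) := by
    have e : Real.log (3 * (2 ^ (t + 2)) ^ 2 * (b : ℝ) ^ 2) =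
        Real.log 3 + 2 * ((t + 2) * Real.log 2) + 2 * Real.log b := by
      rw [Real.log_mul (by positivity) (by positivity), Real.log_mul (by norm_num) (by positivity),
        Real.log_pow, Real.log_pow, Real.log_pow]
      push_cast
      ring
    have h3' : Real.log 3 ≤ 2 := by
      have := Real.log_le_sub_one_of_pos (show (0 : ℝ) < 3 by norm_num)
      linarith
    have h4 : Real.log (3 * (2 ^ (t + 2)) ^ 2 * (b : ℝ) ^ 2) ≤ 7 * t + 6 * Λ := by
      rw [e]
      have h0 : ((t : ℝ) + 2) * Real.log 2 ≤ (t + 2) * 0.7 :=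
        mul_le_mul_of_nonneg_left (by linarith) (by linarith)
      linarith
    have h5 : (0 : ℝ) ≤ 4 * b := by linarith
    have h6 := mul_le_mul_of_nonneg_left h4 h5
    have h7 : 4 * (b : ℝ) * (7 * t + 6 * Λ) = 28 * (b * t) + 24 * (b * Λ) := by ring
    have h8 : (b : ℝ) * Λ ≤ 18 * (l * Λ / t) := by
      have h9 : (b : ℝ) ≤ 18 * l / t := by
        rw [le_div_iff₀ (by linarith)]
        linarith
      calc (b : ℝ) * Λ ≤ 18 * l / t * Λ := by gcongr
        _ = 18 * (l * Λ / t) := by ring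
    have h10 : (8 : ℝ) * (t + 4) * h ≤ 40 * (t * h) := by
      have hh : (0 : ℝ) ≤ h := by positivity
      have h11 := mul_nonneg hh (sub_nonneg.mpr ht1R)
      have h12 : (8 : ℝ) * (t + 4) * h = 40 * (t * h) - 32 * (h * (t - 1)) := by ring
      rw [h12]
      linarith
    rw [h7] at h6
    generalize 4 * (b : ℝ) * Real.log (3 * (2 ^ (t + 2)) ^ 2 * (b : ℝ) ^ 2) = Y at h6 ⊢
    generalize l * Λ / (t : ℝ) = X at h8 ⊢
    linarith
  have h4 : (2 : ℝ) * 4 ^ h ≤ Real.exp (4 * (h + 1)) := by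
    have h5 : (4 : ℝ) ≤ Real.exp 4 := by
      have := Real.add_one_le_exp (4 : ℝ); linarith
    have h6 : (2 : ℝ) * 4 ^ h ≤ 4 ^ (h + 1) := by
      rw [pow_succ]
      have : (0 : ℝ) < 4 ^ h := by positivity
      linarith
    have h7 : (4 : ℝ) ^ (h + 1) ≤ Real.exp 4 ^ (h + 1) := pow_le_pow_left₀ (by norm_num) h5 _
    have h8 : Real.exp 4 ^ (h + 1) = Real.exp (4 * (h + 1)) := by
      rw [← Real.exp_nat_mul]
      congr 1
      push_cast
      ring
    rw [← h8]
    exact h6.trans h7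
  have hk3 : (k : ℝ) * k = Real.exp (2 * l) := by
    have : (k : ℝ) = Real.exp l := (Real.exp_log hk0).symm
    rw [this, ← Real.exp_add]
    ring_nf
  have h3' : (Fintype.card Q : ℝ) ≤ 2 * 4 ^ h * ((K : ℝ) ^ 3 * (k * k)) := by
    exact_mod_cast h3
  set F := 4 * b * Real.log (3 * (2 ^ (t + 2)) ^ 2 * (b : ℝ) ^ 2) + 8 * (t + 4) * h with hF
  calc (Fintype.card Q : ℝ) ≤ 2 * 4 ^ h * ((K : ℝ) ^ 3 * (k * k)) := h3'
    _ ≤ Real.exp (4 * (h + 1)) * (Real.exp F ^ 3 * Real.exp (2 * l)) := by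
        rw [hk3]; gcongr
    _ = Real.exp (4 * (h + 1) + (3 * F + 2 * l)) := by
        rw [← Real.exp_nat_mul, ← Real.exp_add, ← Real.exp_add]
        push_cast
        ring_nf
    _ ≤ Real.exp (11000 * (h + 1 + l + √(h * (l * Λ)))) := by
        apply Real.exp_le_exp.mpr
        have hS0 : 0 ≤ √(h * (l * Λ)) := Real.sqrt_nonneg _
        have hh : (0 : ℝ) ≤ h := by positivity
        have hth : (0 : ℝ) ≤ (t : ℝ) * h := by positivity
        have hX0 : (0 : ℝ) ≤ l * Λ / t := by positivity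
        clear_value F
        generalize √(h * (l * Λ)) = S at *
        generalize l * Λ / (t : ℝ) = X at *
        generalize (t : ℝ) * h = Y at *
        linarith

end Pool.Agent.J4H24.TW
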