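import Mathlib

/-!
# Words with few agreements over an alphabet with `r = 2 ^ (t + 2)` letters
-/

namespace Pool.Agent.J4H24.TW

open Finset

/-- The number of agreements of two words. -/
def agr {n r : ℕ} (a b : Fin n → Fin r) : ℕ := (univ.filter (fun i => a i = b i)).card

lemma card_fix {n r b : ℕ} (hn : n = 2 * b) (hr : 0 < r) (a : Fin n → Fin r) (A : Finset (Fin n))
    (hA : b < A.card) :
    ((univ : Finset (Fin n → Fin r)).filter (fun c => ∀ i ∈ A, a i = c i)).card ≤ r ^ b := by
  classical
  have h1 : (univ : Finset (Fin n → Fin r)).filter (fun c => ∀ i ∈ A, a i = c i) =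
      Fintype.piFinset (fun i => if i ∈ A then {a i} else univ) := by
    ext c
    simp only [mem_filter, mem_univ, true_and, Fintype.mem_piFinset]
    constructor
    · intro h i
      by_cases hi : i ∈ A
      · rw [if_pos hi, mem_singleton]; exact (h i hi).symm
      · rw [if_neg hi]; exact mem_univ _
    · intro h i hi
      have := h i
      rw [if_pos hi, mem_singleton] at this
      exact this.symm
  rw [h1, Fintype.card_piFinset]
  have h2 : ∀ i : Fin n, (if i ∈ A then ({a i} : Finset (Fin r)) else univ).card =
      if i ∈ A then 1 else r := by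
    intro i
    split_ifs
    · exact card_singleton _
    · rw [card_univ, Fintype.card_fin]
  rw [prod_congr rfl (fun i _ => h2 i), prod_ite, prod_const_one, one_mul, prod_const]
  have h3 : (univ.filter (fun i => i ∉ A)).card = n - A.card := by
    have : univ.filter (fun i => i ∉ A) = Aᶜ := by ext i; simp
    rw [this, card_compl, Fintype.card_fin]
  rw [h3]
  exact Nat.pow_le_pow_right hr (by omega)

lemma card_bad {n r b : ℕ} (hn : n = 2 * b) (hr : 0 < r) (a : Fin n → Fin r) :
    ((univ : Finset (Fin n → Fin r)).filter (fun c => b < agr a c)).card ≤ (4 * r) ^ b := by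
  classical
  have h1 : (univ : Finset (Fin n → Fin r)).filter (fun c => b < agr a c) ⊆
      ((univ : Finset (Finset (Fin n))).filter (fun A => b < A.card)).biUnion
        (fun A => (univ : Finset (Fin n → Fin r)).filter (fun c => ∀ i ∈ A, a i = c i)) := by
    intro c hc
    rw [mem_biUnion]
    refine ⟨univ.filter (fun i => a i = c i), ?_, ?_⟩
    · exact mem_filter.mpr ⟨mem_univ _, (mem_filter.mp hc).2⟩
    · exact mem_filter.mpr ⟨mem_univ _, fun i hi => (mem_filter.mp hi).2⟩
  refine (card_le_card h1).trans ?_
  refine (card_biUnion_le_card_mul _ _ (r ^ b) ?_).trans ?_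
  · intro A hA
    exact card_fix hn hr a A (mem_filter.mp hA).2
  · have h2 : ((univ : Finset (Finset (Fin n))).filter (fun A => b < A.card)).card ≤ 2 ^ n := by
      refine (card_le_univ _).trans ?_
      rw [Fintype.card_finset, Fintype.card_fin]
    calc _ ≤ 2 ^ n * r ^ b := Nat.mul_le_mul_right _ h2
      _ = (4 * r) ^ b := by rw [hn, pow_mul, ← mul_pow]; norm_num

/-- **A large code.** -/
lemma exists_words {n r b t : ℕ} (hn : n = 2 * b) (hr : r = 2 ^ (t + 2)) :
    ∀ m, m ≤ 2 ^ (t * b) → ∃ c : ℕ → (Fin n → Fin r),
    ∀ x x', x < m → x' < m → x ≠ x' → agr (c x) (c x') ≤ b := by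
  classical
  have hr0 : 0 < r := by rw [hr]; positivity
  have : NeZero r := ⟨by omega⟩
  intro m
  induction m with
  | zero => intro _; exact ⟨fun _ _ => 0, fun x x' h => by omega⟩
  | succ m ih =>
    intro hm
    obtain ⟨c, hc⟩ := ih (by omega)
    have h1 : ((range m).biUnion (fun x => (univ : Finset (Fin n → Fin r)).filter
        (fun d => b < agr (c x) d))).card < Fintype.card (Fin n → Fin r) := by
      refine lt_of_le_of_lt (card_biUnion_le_card_mul _ _ ((4 * r) ^ b)
        (fun x _ => card_bad hn hr0 (c x))) ?_
      rw [card_range, Fintype.card_fun, Fintype.card_fin, Fintype.card_fin]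
      calc m * (4 * r) ^ b < 2 ^ (t * b) * (4 * r) ^ b :=
            Nat.mul_lt_mul_of_pos_right (by omega) (by positivity)
        _ = r ^ n := by
          rw [hn, pow_mul 2 t b, pow_mul r 2 b, ← mul_pow]
          congr 1
          rw [hr]
          ring
    obtain ⟨d, hd⟩ : ∃ d, d ∉ (range m).biUnion (fun x => (univ : Finset (Fin n → Fin r)).filter
        (fun d => b < agr (c x) d)) := by
      by_contra hcon
      push Not at hcon
      have : (univ : Finset (Fin n → Fin r)) ⊆ (range m).biUnion
          (fun x => (univ : Finset (Fin n → Fin r)).filter (fun d => b < agr (c x) d)) :=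
        fun d _ => hcon d
      have := card_le_card this
      rw [card_univ] at this
      omega
    have hd' : ∀ x, x < m → agr (c x) d ≤ b := by
      intro x hx
      by_contra hcon
      exact hd (mem_biUnion.mpr ⟨x, mem_range.mpr hx, mem_filter.mpr ⟨mem_univ _, by omega⟩⟩)
    have hsym : ∀ a e : Fin n → Fin r, agr a e = agr e a := by
      intro a e
      unfold agr
      congr 1
      ext i
      simp [eq_comm]
    refine ⟨fun x => if x = m then d else c x, ?_⟩
    intro x x' hx hx' hne
    simp only
    by_cases h2 : x = m
    · rw [if_pos h2, if_neg (by omega), hsym]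
      exact hd' x' (by omega)
    · rw [if_neg h2]
      by_cases h3 : x' = m
      · rw [if_pos h3]; exact hd' x (by omega)
      · rw [if_neg h3]; exact hc x x' (by omega) (by omega) hne

end Pool.Agent.J4H24.TW
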