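import Pool.Agent.J4H24.TW.Sw
import Pool.Agent.J4H24.TE.Seq

/-!
# The levels of the codes
-/

namespace Pool.Agent.J4H24.TW

open Pool.Agent.J4H24.TE (Codes)

/-- The sizes, divided by `2 r² b`. -/
def mu (c b : ℕ) : ℕ → ℕ
  | 0 => b
  | d + 1 => mu c b d + mu c b d / c + 1

/-- The sizes. -/
def mm (t b c d : ℕ) : ℕ := 2 * (2 ^ (t + 2)) ^ 2 * b * mu c b d

/-- The ranges of the registers. -/
def NS (t b c : ℕ) : ℕ → ℕ
  | 0 => 1
  | d + 1 => (mm t b c d + (2 ^ (t + 2)) ^ 2) ^ (4 * b)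

lemma mu_succ_le (c b d : ℕ) : mu c b d ≤ mu c b (d + 1) := by
  show mu c b d ≤ mu c b d + mu c b d / c + 1
  exact (Nat.le_add_right _ _).trans (Nat.le_add_right _ _)

lemma le_mu (c b : ℕ) : ∀ d, b ≤ mu c b d
  | 0 => le_rfl
  | d + 1 => (le_mu c b d).trans (mu_succ_le c b d)

lemma two_pow {c : ℕ} (hc : 0 < c) : 2 * c ^ c ≤ (c + 1) ^ c := by
  have h1 : (2 : ℝ) * c ^ c ≤ (c + 1) ^ c := by
    have hc' : (0 : ℝ) < c := by exact_mod_cast hc
    have h2 := one_add_mul_le_pow (a := 1 / (c : ℝ)) (by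
      have : (0 : ℝ) < 1 / c := by positivity
      linarith) c
    have h3 : (1 : ℝ) + (c : ℝ) * (1 / c) = 2 := by field_simp; norm_num
    rw [h3] at h2
    have h4 : ((c : ℝ) + 1) = c * (1 + 1 / c) := by field_simp
    have h5 : ((c : ℝ) * (1 + 1 / c)) ^ c = (c : ℝ) ^ c * (1 + 1 / c) ^ c := mul_pow _ _ _
    rw [h4, h5]
    have h6 : (0 : ℝ) < (c : ℝ) ^ c := by positivity
    nlinarith
  exact_mod_cast h1

lemma growth {t b c : ℕ} (hc : 0 < c) (hb : b = (t + 4) * c) (d : ℕ) :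
    2 * (2 ^ (t + 2)) ^ 2 * (mm t b c d + (2 ^ (t + 2)) ^ 2) ^ (4 * b) ≤
      mm t b c (d + 1) ^ (4 * b) := by
  set r2 := (2 ^ (t + 2)) ^ 2 with hr2
  set M := mu c b d with hM
  have h1 : (c + 1) * M + 1 ≤ c * (M + M / c + 1) := by
    have h2 := Nat.div_add_mod M c
    have h3 := Nat.mod_lt M hc
    have h4 : c * (M + M / c + 1) = c * M + c * (M / c) + c := by ring
    rw [h4]
    have h5 : (c + 1) * M + 1 = c * M + M + 1 := by ring
    omega
  have h6 : c + 1 ≤ 2 * b := by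
    rw [hb]
    nlinarith
  have h7 : (c + 1) * (mm t b c d + r2) ≤ c * mm t b c (d + 1) := by
    have e1 : (c + 1) * (mm t b c d + r2) = r2 * (2 * b * ((c + 1) * M) + (c + 1)) := by
      unfold mm
      rw [← hM, ← hr2]
      ring
    have e2 : c * mm t b c (d + 1) = r2 * (2 * b * (c * (M + M / c + 1))) := by
      unfold mm
      rw [← hr2]
      show c * (2 * r2 * b * (mu c b d + mu c b d / c + 1)) = _
      rw [← hM]
      ring
    rw [e1, e2]
    apply Nat.mul_le_mul_left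
    calc 2 * b * ((c + 1) * M) + (c + 1) ≤ 2 * b * ((c + 1) * M) + 2 * b := by omega
      _ = 2 * b * ((c + 1) * M + 1) := by ring
      _ ≤ _ := Nat.mul_le_mul_left _ h1
  have h8 : ((c + 1) * (mm t b c d + r2)) ^ (4 * b) ≤ (c * mm t b c (d + 1)) ^ (4 * b) :=
    Nat.pow_le_pow_left h7 _
  rw [mul_pow, mul_pow c] at h8
  have h9 : 2 * r2 * c ^ (4 * b) ≤ (c + 1) ^ (4 * b) := by
    have e : 4 * b = c * (4 * (t + 4)) := by rw [hb]; ring
    rw [e, pow_mul c c, pow_mul (c + 1) c]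
    have h10 : (2 * c ^ c) ^ (4 * (t + 4)) ≤ ((c + 1) ^ c) ^ (4 * (t + 4)) :=
      Nat.pow_le_pow_left (two_pow hc) _
    rw [mul_pow] at h10
    refine le_trans (Nat.mul_le_mul_right _ ?_) h10
    have e3 : 2 * r2 = 2 ^ (2 * t + 5) := by
      rw [hr2, ← pow_mul]
      rw [show 2 * t + 5 = (t + 2) * 2 + 1 by ring, pow_succ]
      ring
    rw [e3]
    exact Nat.pow_le_pow_right (by norm_num) (by omega)
  have h14 : c ^ (4 * b) * (2 * r2 * (mm t b c d + r2) ^ (4 * b)) ≤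
      c ^ (4 * b) * mm t b c (d + 1) ^ (4 * b) := by
    calc c ^ (4 * b) * (2 * r2 * (mm t b c d + r2) ^ (4 * b))
        = (2 * r2 * c ^ (4 * b)) * (mm t b c d + r2) ^ (4 * b) := by ring
      _ ≤ (c + 1) ^ (4 * b) * (mm t b c d + r2) ^ (4 * b) := Nat.mul_le_mul_right _ h9
      _ ≤ _ := h8
  exact Nat.le_of_mul_le_mul_left h14 (by positivity)

lemma q_NS {t b c : ℕ} (hc : 0 < c) (hb : b = (t + 4) * c) :
    ∀ d, 2 * (2 ^ (t + 2)) ^ 2 * NS t b c d ≤ mm t b c d ^ (4 * b)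
  | 0 => by
      have hb0 : 0 < b := by rw [hb]; positivity
      show 2 * (2 ^ (t + 2)) ^ 2 * 1 ≤ (2 * (2 ^ (t + 2)) ^ 2 * b * b) ^ (4 * b)
      have h1 : 2 * (2 ^ (t + 2)) ^ 2 * 1 ≤ 2 * (2 ^ (t + 2)) ^ 2 * b * b := by
        rw [mul_assoc _ b b]
        exact Nat.mul_le_mul_left _ (Nat.mul_pos hb0 hb0)
      exact h1.trans (Nat.le_self_pow (by omega) _)
  | d + 1 => growth hc hb d

lemma NS_mono (t b c : ℕ) : ∀ d, NS t b c d ≤ NS t b c (d + 1)
  | 0 => by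
      show 1 ≤ (mm t b c 0 + (2 ^ (t + 2)) ^ 2) ^ (4 * b)
      exact Nat.one_le_pow _ _ (by positivity)
  | d + 1 => by
      show (mm t b c d + _) ^ (4 * b) ≤ (mm t b c (d + 1) + _) ^ (4 * b)
      apply Nat.pow_le_pow_left
      unfold mm
      have := Nat.mul_le_mul_left (2 * (2 ^ (t + 2)) ^ 2 * b) (mu_succ_le c b d)
      omega

/-- The codes. -/
lemma strip_codes {k t b c : ℕ} (hc : 0 < c) (hb : b = (t + 4) * c) (hk : k ≤ 2 ^ (t * b)) :
    ∃ al be : ℕ → ℕ → ℕ → ℕ, Codes k al be (NS t b c) := by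
  have hb0 : 0 < b := by rw [hb]; positivity
  have hex : ∀ d, ∃ al be : ℕ → ℕ → ℕ,
      (∀ x x' s u s', x < k → x' < k → s < NS t b c d → u < NS t b c d → s' < NS t b c d →
        al x s = al x' u → be x' u = be x s' → x' = x ∧ s' = s) ∧
      (∀ x s, x < k → s < NS t b c d → al x s < (mm t b c d + (2 ^ (t + 2)) ^ 2) ^ (4 * b)) ∧
      (∀ x s, x < k → s < NS t b c d → be x s < (mm t b c d + (2 ^ (t + 2)) ^ 2) ^ (4 * b)) := by
    intro d
    refine exists_strip hb0 hk ⟨mu c b d, rfl⟩ ?_ (q_NS hc hb d)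
    unfold mm
    have := le_mu c b d
    exact Nat.mul_pos (by positivity) (by omega)
  choose al be h1 h2 h3 using hex
  refine ⟨fun d => if d = 0 then fun x _ => x else al d, be, ?_, ?_, ?_, NS_mono t b c, ?_, ?_⟩
  · intro d x x' s u s' hx hx' hs hu hs' e1 e2
    simp only [Nat.add_eq_zero_iff, one_ne_zero, and_false, if_false] at e1
    exact h1 (d + 1) x x' s u s' hx hx' hs hu hs' e1 e2
  · intro d x s hx hs
    by_cases hd : d = 0
    · subst hd
      simp only [if_true]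
      have h4 : 2 ^ (t * b) ≤ (mm t b c 0 + (2 ^ (t + 2)) ^ 2) ^ (4 * b) := by
        have h5 : 2 ^ t ≤ mm t b c 0 + (2 ^ (t + 2)) ^ 2 := by
          have h6 : 2 ^ t ≤ 2 ^ (t + 2) := Nat.pow_le_pow_right (by norm_num) (by omega)
          have h7 : 2 ^ (t + 2) ≤ (2 ^ (t + 2)) ^ 2 := Nat.le_self_pow (by norm_num) _
          omega
        calc 2 ^ (t * b) = (2 ^ t) ^ b := pow_mul 2 t b
          _ ≤ (2 ^ t) ^ (4 * b) := Nat.pow_le_pow_right (by positivity) (by omega)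
          _ ≤ _ := Nat.pow_le_pow_left h5 _
      show x < (mm t b c 0 + (2 ^ (t + 2)) ^ 2) ^ (4 * b)
      omega
    · simp only [if_neg hd]
      exact h2 d x s hx hs
  · intro d x s hx hs
    exact h3 d x s hx hs
  · intro x x' _ _ e
    simpa using e
  · show 0 < 1
    norm_num

lemma mu_le {c b : ℕ} (hc : 0 < c) (hcb : c ≤ b) : ∀ d : ℕ, (mu c b d : ℝ) ≤ b * (1 + 2 / c) ^ d
  | 0 => by simp [mu]
  | d + 1 => by
      have ih := mu_le hc hcb d
      have hc' : (0 : ℝ) < c := by exact_mod_cast hc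
      have h1 : ((mu c b d / c : ℕ) : ℝ) ≤ (mu c b d : ℝ) / c := Nat.cast_div_le
      have h2 : (1 : ℝ) ≤ (mu c b d : ℝ) / c := by
        rw [le_div_iff₀ hc', one_mul]
        exact_mod_cast hcb.trans (le_mu c b d)
      have h3 : ((mu c b (d + 1) : ℕ) : ℝ) = mu c b d + ((mu c b d / c : ℕ) : ℝ) + 1 := by
        show ((mu c b d + mu c b d / c + 1 : ℕ) : ℝ) = _
        push_cast
        ring
      rw [h3, pow_succ]
      calc (mu c b d : ℝ) + ((mu c b d / c : ℕ) : ℝ) + 1 ≤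
            mu c b d + mu c b d / c + mu c b d / c := by
            linarith
        _ = mu c b d * (1 + 2 / c) := by field_simp; ring
        _ ≤ (b * (1 + 2 / c) ^ d) * (1 + 2 / c) := by gcongr
        _ = _ := by ring

open Real in
/-- The last range. -/
lemma NS_le {t b c : ℕ} (hc : 0 < c) (hb : b = (t + 4) * c) (h : ℕ) :
    (NS t b c (h + 1) : ℝ) ≤
      Real.exp (4 * b * Real.log (3 * (2 ^ (t + 2)) ^ 2 * b ^ 2) + 8 * (t + 4) * h) := by
  have hb0 : 0 < b := by rw [hb]; positivity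
  have hcb : c ≤ b := by rw [hb]; exact Nat.le_mul_of_pos_left _ (by omega)
  have hb' : (0 : ℝ) < b := by exact_mod_cast hb0
  have hb1 : (1 : ℝ) ≤ b := by exact_mod_cast hb0
  have hc' : (0 : ℝ) < c := by exact_mod_cast hc
  have hbc : (b : ℝ) = (t + 4) * c := by rw [hb]; push_cast; ring
  set R : ℝ := (2 ^ (t + 2)) ^ 2 with hR
  have hR0 : 0 < R := by positivity
  have h1 : ((mm t b c h + (2 ^ (t + 2)) ^ 2 : ℕ) : ℝ) ≤ (3 * R * b ^ 2) * (1 + 2 / c) ^ h := by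
    have h2 := mu_le hc hcb h
    have h3 : (b : ℝ) ≤ mu c b h := by exact_mod_cast le_mu c b h
    unfold mm
    push_cast
    rw [← hR]
    have h4 : (1 : ℝ) ≤ b * mu c b h := by nlinarith
    have h5 : (b : ℝ) * mu c b h ≤ b * (b * (1 + 2 / c) ^ h) := by gcongr
    calc 2 * R * b * mu c b h + R = R * (2 * (b * mu c b h) + 1) := by ring
      _ ≤ R * (3 * (b * mu c b h)) := by gcongr; linarith
      _ ≤ R * (3 * (b * (b * (1 + 2 / c) ^ h))) := by gcongr
      _ = _ := by ring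
  have h6 : (NS t b c (h + 1) : ℝ) = ((mm t b c h + (2 ^ (t + 2)) ^ 2 : ℕ) : ℝ) ^ (4 * b) := by
    show (((mm t b c h + (2 ^ (t + 2)) ^ 2) ^ (4 * b) : ℕ) : ℝ) = _
    push_cast
    ring
  have h7 : (1 + 2 / (c : ℝ)) ^ h ≤ Real.exp (2 / c * h) := by
    have h8 : (1 + 2 / (c : ℝ)) ≤ Real.exp (2 / c) := by
      have := Real.add_one_le_exp (2 / (c : ℝ)); linarith
    calc (1 + 2 / (c : ℝ)) ^ h ≤ Real.exp (2 / c) ^ h := by gcongr
      _ = Real.exp (2 / c * h) := by rw [← Real.exp_nat_mul]; ring_nf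
  rw [h6]
  calc ((mm t b c h + (2 ^ (t + 2)) ^ 2 : ℕ) : ℝ) ^ (4 * b)
      ≤ ((3 * R * b ^ 2) * Real.exp (2 / c * h)) ^ (4 * b) := by
        gcongr
        exact h1.trans (by gcongr)
    _ = (Real.exp (Real.log (3 * R * b ^ 2)) * Real.exp (2 / c * h)) ^ (4 * b) := by
        rw [Real.exp_log (by positivity)]
    _ = Real.exp (4 * b * Real.log (3 * R * b ^ 2) + 8 * (t + 4) * h) := by
        rw [← Real.exp_add, ← Real.exp_nat_mul]
        congr 1
        push_cast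
        have e : (4 * (b : ℝ)) * (2 / c * h) = 8 * (t + 4) * h := by
          rw [hbc]; field_simp; ring
        rw [mul_add, e]

end Pool.Agent.J4H24.TW
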