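import Pool.Agent.J4H24.TW.Gw

/-!
# Codes from strips over larger alphabets
-/

namespace Pool.Agent.J4H24.TW

open Finset

/-- The weight of a point along a word. -/
def wt {n r : ℕ} (c : Fin n → Fin r) (z : Fin n × Bool → ℕ) : ℕ :=
  ∑ i, (z (i, true) + 2 * (c i).val * z (i, false))

/-- The translation along a word. -/
def tr {n r : ℕ} (c : Fin n → Fin r) (z : Fin n × Bool → ℕ) : Fin n × Bool → ℕ :=
  fun p => if p.2 = true then z p + (c p.1).val ^ 2 else z p + (r - (c p.1).val)

/-- The squared distance. -/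
def ds (a b : ℕ) : ℕ := ((a - b) + (b - a)) ^ 2

/-- The change of the weight. -/
def DD {n r : ℕ} (c c' : Fin n → Fin r) : ℕ :=
  ∑ i, ((c' i).val ^ 2 + 2 * (c i).val * (r - (c' i).val))

lemma wt_tr {n r : ℕ} (c c' : Fin n → Fin r) (z : Fin n × Bool → ℕ) :
    wt c (tr c' z) = wt c z + DD c c' := by
  unfold wt tr DD
  rw [← sum_add_distrib]
  apply sum_congr rfl
  intro i _
  simp only [if_true, Bool.false_eq_true, if_false]
  ring

lemma ds_eq {a b r : ℕ} (ha : a ≤ r) (hb : b ≤ r) :
    b ^ 2 + 2 * a * (r - b) = (a ^ 2 + 2 * a * (r - a)) + ds a b := by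
  unfold ds
  rcases le_total a b with h | h
  · obtain ⟨e, rfl⟩ := Nat.exists_eq_add_of_le h
    obtain ⟨g, rfl⟩ := Nat.exists_eq_add_of_le hb
    have h1 : a + e + g - (a + e) = g := by omega
    have h2 : a + e + g - a = e + g := by omega
    have h3 : a - (a + e) + (a + e - a) = e := by omega
    rw [h1, h2, h3]
    ring
  · obtain ⟨e, rfl⟩ := Nat.exists_eq_add_of_le h
    obtain ⟨g, rfl⟩ := Nat.exists_eq_add_of_le ha
    have h1 : b + e + g - b = e + g := by omega
    have h2 : b + e + g - (b + e) = g := by omega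
    have h3 : b + e - b + (b - (b + e)) = e := by omega
    rw [h1, h2, h3]
    ring

/-- The squared distance of two words. -/
def dw {n r : ℕ} (c c' : Fin n → Fin r) : ℕ := ∑ i, ds (c i).val (c' i).val

lemma DD_eq {n r : ℕ} (c c' : Fin n → Fin r) : DD c c' = DD c c + dw c c' := by
  unfold DD dw
  rw [← sum_add_distrib]
  apply sum_congr rfl
  intro i _
  exact ds_eq (c i).isLt.le (c' i).isLt.le

lemma dw_le {n r : ℕ} (hr : 0 < r) (c c' : Fin n → Fin r) : dw c c' ≤ n * (r - 1) ^ 2 := by
  unfold dw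
  calc ∑ i : Fin n, ds (c i).val (c' i).val ≤ ∑ _i : Fin n, (r - 1) ^ 2 := by
        apply sum_le_sum
        intro i _
        unfold ds
        apply Nat.pow_le_pow_left
        have := (c i).isLt
        have := (c' i).isLt
        omega
    _ = n * (r - 1) ^ 2 := by simp

lemma le_dw {n r b : ℕ} (hn : n = 2 * b) {c c' : Fin n → Fin r} (h : agr c c' ≤ b) :
    b ≤ dw c c' := by
  unfold dw
  have h1 : b ≤ (univ.filter (fun i => ¬ c i = c' i)).card := by
    have h2 := card_filter_add_card_filter_not (s := (univ : Finset (Fin n)))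
      (fun i => c i = c' i)
    rw [card_univ, Fintype.card_fin] at h2
    unfold agr at h
    omega
  refine h1.trans ?_
  rw [card_filter]
  apply sum_le_sum
  intro i _
  split_ifs with hi
  · exact Nat.zero_le _
  · unfold ds
    have : (c i).val ≠ (c' i).val := fun e => hi (Fin.ext e)
    have h3 : 1 ≤ ((c i).val - (c' i).val) + ((c' i).val - (c i).val) := by omega
    exact Nat.one_le_pow _ _ h3

lemma tr_inj {n r : ℕ} {c : Fin n → Fin r} {z z' : Fin n × Bool → ℕ} (h : tr c z = tr c z') :
    z = z' := by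
  funext p
  have := congrFun h p
  unfold tr at this
  split_ifs at this <;> omega

/-- The left part of the matching of a word. -/
def Lf {n r : ℕ} (b q m : ℕ) (c : Fin n → Fin r) (z : Fin n × Bool → Fin m) : Prop :=
  wt c (fun p => (z p : ℕ)) % (q * b) < b

lemma wt_update {n r m : ℕ} (hn : 0 < n) (c : Fin n → Fin r) (z : Fin n × Bool → Fin m)
    (v : Fin m) :
    wt c (fun p => ((Function.update z (⟨0, hn⟩, true) v) p : ℕ)) +
      (z (⟨0, hn⟩, true) : ℕ) = wt c (fun p => (z p : ℕ)) + v := by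
  have g1 := add_sum_erase univ (fun i : Fin n =>
    (((Function.update z (⟨0, hn⟩, true) v) (i, true) : ℕ) +
      2 * (c i).val * ((Function.update z (⟨0, hn⟩, true) v) (i, false) : ℕ)))
      (mem_univ (⟨0, hn⟩ : Fin n))
  have g2 := add_sum_erase univ (fun i : Fin n => ((z (i, true) : ℕ) +
    2 * (c i).val * (z (i, false) : ℕ))) (mem_univ (⟨0, hn⟩ : Fin n))
  have hf : ∀ i : Fin n, (Function.update z (⟨0, hn⟩, true) v) (i, false) = z (i, false) := by
    intro i
    rw [Function.update_of_ne]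
    intro e
    simpa using congrArg Prod.snd e
  have h1 : ∑ x ∈ univ.erase (⟨0, hn⟩ : Fin n),
      (((Function.update z (⟨0, hn⟩, true) v) (x, true) : ℕ) +
        2 * (c x).val * ((Function.update z (⟨0, hn⟩, true) v) (x, false) : ℕ)) =
      ∑ x ∈ univ.erase (⟨0, hn⟩ : Fin n), ((z (x, true) : ℕ) +
        2 * (c x).val * (z (x, false) : ℕ)) := by
    apply sum_congr rfl
    intro x hx
    rw [hf, Function.update_of_ne]
    intro e
    exact (mem_erase.mp hx).1 (congrArg Prod.fst e)
  rw [h1, Function.update_self, hf] at g1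
  show (∑ i : Fin n, (((Function.update z (⟨0, hn⟩, true) v) (i, true) : ℕ) +
      2 * (c i).val * ((Function.update z (⟨0, hn⟩, true) v) (i, false) : ℕ))) + _ =
    (∑ i : Fin n, ((z (i, true) : ℕ) + 2 * (c i).val * (z (i, false) : ℕ))) + v
  rw [← g1, ← g2]
  ring

/-- A part `1 / q` of the points is on the left. -/
lemma card_left {n r b q m : ℕ} (hn : 0 < n) (hb : 0 < b) (hq : 0 < q) (hm : q * b ∣ m)
    (hm0 : 0 < m) (c : Fin n → Fin r) :
    m ^ (2 * n) ≤ q * Nat.card {z : Fin n × Bool → Fin m // Lf b q m c z} := by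
  classical
  have : NeZero m := ⟨by omega⟩
  let j : Fin n × Bool := (⟨0, hn⟩, true)
  have hqb : 0 < q * b := Nat.mul_pos hq hb
  let R : (Fin n × Bool → Fin m) → ℕ := fun z => wt c (fun p => (z p : ℕ)) % (q * b) / b
  have hR : ∀ z, R z < q := by
    intro z
    have := Nat.mod_lt (wt c (fun p => (z p : ℕ))) hqb
    exact Nat.div_lt_of_lt_mul (by rw [mul_comm b q]; exact this)
  let sh : ℕ → (Fin n × Bool → Fin m) → (Fin n × Bool → Fin m) := fun a z =>
    Function.update z j ⟨((z j : ℕ) + a * b) % m, Nat.mod_lt _ hm0⟩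
  have hsh : ∀ z, Lf b q m c (sh (q - R z) z) := by
    intro z
    have h1 := wt_update hn c z ⟨((z j : ℕ) + (q - R z) * b) % m, Nat.mod_lt _ hm0⟩
    simp only at h1
    set W := wt c (fun p => (z p : ℕ)) with hW
    set W' := wt c (fun p => ((Function.update z (⟨0, hn⟩, true)
      ⟨((z j : ℕ) + (q - R z) * b) % m, Nat.mod_lt _ hm0⟩) p : ℕ)) with hW'
    show W' % (q * b) < b
    have h2 : (W' + (z j : ℕ)) % (q * b) = (W + ((z j : ℕ) + (q - R z) * b)) % (q * b) := by
      rw [h1, Nat.add_mod, Nat.mod_mod_of_dvd _ hm, ← Nat.add_mod]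
    have h3 : W' % (q * b) = (W + (q - R z) * b) % (q * b) := by
      have h4 : (W' + (z j : ℕ)) ≡ ((W + (q - R z) * b) + (z j : ℕ)) [MOD (q * b)] := by
        unfold Nat.ModEq
        rw [h2]
        congr 1
        ring
      exact Nat.ModEq.add_right_cancel' _ h4
    have hRz : R z < q := hR z
    have h5 : W % (q * b) = R z * b + (W % (q * b)) % b := by
      have := Nat.div_add_mod (W % (q * b)) b
      rw [mul_comm] at this
      exact this.symm
    have h6 : (W % (q * b)) % b < b := Nat.mod_lt _ hb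
    have h7 : W + (q - R z) * b = q * b * (W / (q * b)) + (q * b + (W % (q * b)) % b) := by
      have h8 := Nat.div_add_mod W (q * b)
      have h9 : R z * b + (q - R z) * b = q * b := by
        rw [← Nat.add_mul]; congr 1; omega
      omega
    have h10 : b ≤ q * b := Nat.le_mul_of_pos_left _ hq
    rw [h3, h7, Nat.mul_add_mod, Nat.add_mod_left, Nat.mod_eq_of_lt (by omega)]
    exact h6
  let Ψ : (Fin n × Bool → Fin m) → Fin q × {z : Fin n × Bool → Fin m // Lf b q m c z} :=
    fun z => (⟨R z, hR z⟩, ⟨sh (q - R z) z, hsh z⟩)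
  have hinj : Function.Injective Ψ := by
    intro z z' e
    have e1 : R z = R z' := congrArg (fun x => x.1.val) e
    have e2 : sh (q - R z) z = sh (q - R z') z' := congrArg (fun x => x.2.val) e
    rw [← e1] at e2
    funext p
    by_cases hp : p = j
    · subst hp
      have h1 := congrArg Fin.val (congrFun e2 j)
      simp only [sh, Function.update_self] at h1
      have h2 : (z j : ℕ) ≡ (z' j : ℕ) [MOD m] := Nat.ModEq.add_right_cancel' _ h1
      exact Fin.ext (Nat.ModEq.eq_of_lt_of_lt h2 (z j).isLt (z' j).isLt)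
    · have h1 := congrFun e2 p
      simp only [sh, Function.update_of_ne hp] at h1
      exact h1
  have h1 := Nat.card_le_card_of_injective Ψ hinj
  rw [Nat.card_prod, Nat.card_fun, Nat.card_prod] at h1
  simp only [Nat.card_eq_fintype_card, Fintype.card_fin, Fintype.card_bool] at h1 ⊢
  rw [mul_comm 2 n]
  exact h1

/-- **The code.** -/
lemma exists_strip {k t b m N : ℕ} (hb : 0 < b) (hk : k ≤ 2 ^ (t * b))
    (hm : 2 * (2 ^ (t + 2)) ^ 2 * b ∣ m) (hm0 : 0 < m)
    (hN : 2 * (2 ^ (t + 2)) ^ 2 * N ≤ m ^ (4 * b)) : ∃ al be : ℕ → ℕ → ℕ,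
    (∀ x x' s u s', x < k → x' < k → s < N → u < N → s' < N →
      al x s = al x' u → be x' u = be x s' → x' = x ∧ s' = s) ∧
    (∀ x s, x < k → s < N → al x s < (m + (2 ^ (t + 2)) ^ 2) ^ (4 * b)) ∧
    (∀ x s, x < k → s < N → be x s < (m + (2 ^ (t + 2)) ^ 2) ^ (4 * b)) := by
  classical
  set r := 2 ^ (t + 2) with hr
  have hr0 : 4 ≤ r := by
    rw [hr, pow_add]
    have : 1 ≤ 2 ^ t := Nat.one_le_pow _ _ (by norm_num)
    omega
  set n := 2 * b with hn
  set q := 2 * r ^ 2 with hq
  have hq0 : 0 < q := by positivity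
  have hn0 : 0 < n := by omega
  obtain ⟨c, hc⟩ := exists_words (n := n) (b := b) hn hr (2 ^ (t * b)) le_rfl
  have hσ : ∀ x : ℕ, ∃ σ : Fin N → {z : Fin n × Bool → Fin m // Lf b q m (c x) z},
      Function.Injective σ := by
    intro x
    have h1 := card_left hn0 hb hq0 hm hm0 (c x)
    have h2 : N ≤ Fintype.card {z : Fin n × Bool → Fin m // Lf b q m (c x) z} := by
      rw [Nat.card_eq_fintype_card] at h1
      have e : m ^ (2 * n) = m ^ (4 * b) := by rw [hn]; congr 1; ring
      rw [e] at h1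
      exact Nat.le_of_mul_le_mul_left (hN.trans h1) hq0
    obtain ⟨e⟩ := Function.Embedding.nonempty_of_card_le
      (α := Fin N) (β := {z : Fin n × Bool → Fin m // Lf b q m (c x) z})
      (by rw [Fintype.card_fin]; exact h2)
    exact ⟨e, e.injective⟩
  choose σ hσi using hσ
  -- numbering of the points
  let V := Fin n × Bool → Fin (m + r ^ 2)
  have hV : Fintype.card V = (m + r ^ 2) ^ (4 * b) := by
    simp only [V, Fintype.card_fun, Fintype.card_prod, Fintype.card_fin, Fintype.card_bool]
    congr 1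
    rw [hn]; ring
  let e : V ≃ Fin ((m + r ^ 2) ^ (4 * b)) := Fintype.equivFinOfCardEq hV
  let num : (Fin n × Bool → ℕ) → ℕ := fun z =>
    if h : ∀ p, z p < m + r ^ 2 then (e (fun p => ⟨z p, h p⟩) : ℕ) else 0
  have hnum : ∀ z, num z < (m + r ^ 2) ^ (4 * b) := by
    intro z
    simp only [num]
    split_ifs
    · exact (e _).isLt
    · positivity
  have hnumi : ∀ z z', (∀ p, z p < m + r ^ 2) → (∀ p, z' p < m + r ^ 2) → num z = num z' →
      z = z' := by
    intro z z' h h' hh
    simp only [num, dif_pos h, dif_pos h'] at hh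
    have h1 := e.injective (Fin.ext hh)
    funext p
    exact congrArg Fin.val (congrFun h1 p)
  let pt : ℕ → ℕ → (Fin n × Bool → ℕ) := fun x s =>
    if h : s < N then fun p => ((σ x ⟨s, h⟩).1 p : ℕ) else fun _ => 0
  have hpt1 : ∀ x s, s < N → ∀ p, pt x s p < m := by
    intro x s hs p
    simp only [pt, dif_pos hs]
    exact ((σ x ⟨s, hs⟩).1 p).isLt
  have hpt2 : ∀ x s, s < N → wt (c x) (pt x s) % (q * b) < b := by
    intro x s hs
    simp only [pt, dif_pos hs]
    exact (σ x ⟨s, hs⟩).2
  have hpti : ∀ x s s', s < N → s' < N → pt x s = pt x s' → s = s' := by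
    intro x s s' hs hs' h
    simp only [pt, dif_pos hs, dif_pos hs'] at h
    have h1 : σ x ⟨s, hs⟩ = σ x ⟨s', hs'⟩ := by
      apply Subtype.ext
      funext p
      exact Fin.ext (congrFun h p)
    exact congrArg Fin.val (hσi x h1)
  have htr : ∀ x s, s < N → ∀ p, tr (c x) (pt x s) p < m + r ^ 2 := by
    intro x s hs p
    have h1 := hpt1 x s hs p
    have h2 := (c x p.1).isLt
    have h3 : (c x p.1).val ^ 2 ≤ r ^ 2 := Nat.pow_le_pow_left h2.le 2
    have h4 : r ≤ r ^ 2 := Nat.le_self_pow (by norm_num) r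
    unfold tr
    split_ifs <;> omega
  refine ⟨fun x s => num (pt x s), fun x s => num (tr (c x) (pt x s)), ?_,
    fun x s _ _ => hnum _, fun x s _ _ => hnum _⟩
  intro x x' s u s' hx hx' hs hu hs' h1 h2
  have e1 := hnumi _ _ (fun p => by have := hpt1 x s hs p; omega)
    (fun p => by have := hpt1 x' u hu p; omega) h1
  have e2 := hnumi _ _ (htr x' u hu) (htr x s' hs') h2
  by_cases hxx : x' = x
  · subst hxx
    have e3 := hpti x' u s' hu hs' (tr_inj e2)
    have e4 := hpti x' s u hs hu e1
    exact ⟨rfl, by omega⟩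
  · exfalso
    have a1 := hpt2 x s hs
    have a2 := hpt2 x s' hs'
    have a3 : wt (c x) (tr (c x') (pt x' u)) = wt (c x) (pt x s) + DD (c x) (c x') := by
      rw [wt_tr, e1]
    have a4 : wt (c x) (tr (c x) (pt x s')) = wt (c x) (pt x s') + DD (c x) (c x) := by
      rw [wt_tr]
    rw [e2, a4, DD_eq (c x) (c x')] at a3
    have a5 := le_dw hn (hc x x' (by omega) (by omega) (fun e => hxx e.symm))
    have a6 := dw_le (by omega : 0 < r) (c x) (c x')
    set A := wt (c x) (pt x s)
    set B := wt (c x) (pt x s')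
    set D := dw (c x) (c x')
    have a7 : B = A + D := by omega
    have a8 : D + b ≤ q * b := by
      have h3 : n * (r - 1) ^ 2 + b ≤ q * b := by
        obtain ⟨g, hg⟩ : ∃ g, r = g + 1 := ⟨r - 1, by omega⟩
        have h4 : r - 1 = g := by omega
        rw [h4, hn, hq, hg]
        nlinarith [Nat.zero_le (g * b), Nat.zero_le b]
      omega
    have b1 := Nat.div_add_mod A (q * b)
    have b2 : (A + D) % (q * b) = A % (q * b) + D ∨ (A + D) % (q * b) + q * b = A % (q * b) + D := by
      have h3 : (A + D) % (q * b) = (A % (q * b) + D) % (q * b) :=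
        (Nat.mod_add_mod A (q * b) D).symm
      rcases Nat.lt_or_ge (A % (q * b) + D) (q * b) with hlt | hge
      · left
        rw [h3, Nat.mod_eq_of_lt hlt]
      · right
        rw [h3, Nat.mod_eq_sub_mod hge, Nat.mod_eq_of_lt (by omega)]
        omega
    rw [a7] at a2
    rcases b2 with b2 | b2 <;> omega

end Pool.Agent.J4H24.TW
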